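import Pool.Agent.W525.CB.Stm

open AlgebraicGeometry CategoryTheory Order

namespace Pool.Agent.W750.CB

open Pool.Agent.W525.CB

theorem alt_tri {L M ι : Type} [Field L] [AddCommGroup M] [Module L M] [Fintype ι] [DecidableEq ι]
    (A : M [⋀^ι]→ₗ[L] L) (c c' : ι → M) (d r : ι → L) (κ : ι) (hr : r κ = 0)
    (h : ∀ i, c' i = d i • c i + (r i * d κ) • c κ) : A c' = (∏ i, d i) * A c := by
  classical
  set φ : (ι → L) →ₗ[L] M := Fintype.linearCombination L c with hφ
  set B : (ι → L) [⋀^ι]→ₗ[L] L := A.compLinearMap φ with hB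
  set N : Matrix ι ι L := fun i j => Matrix.diagonal d i j + r i * Matrix.diagonal d κ j with hN
  have hdet : N.det = ∏ i, d i := by
    rw [← Matrix.det_diagonal]
    exact Matrix.det_eq_of_forall_row_eq_smul_add_const r κ hr (fun i j => rfl)
  have hrow : ∀ i, φ (N i) = c' i := by
    intro i
    rw [hφ, Fintype.linearCombination_apply, h i]
    simp only [hN, Matrix.diagonal_apply, add_smul, Finset.sum_add_distrib, mul_smul, ite_smul,
      mul_ite, mul_zero, zero_smul, Finset.sum_ite_eq, Finset.mem_univ,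
      if_true]
  have hone : ∀ i, φ (Pi.basisFun L ι i) = c i := by
    intro i
    rw [hφ, Fintype.linearCombination_apply]
    simp [Pi.basisFun_apply, Pi.single_apply]
  have h1 : B N = N.det * B (Pi.basisFun L ι) := by
    have h2 := AlternatingMap.eq_smul_basis_det (Pi.basisFun L ι) B
    have h3 : B N = (B (Pi.basisFun L ι) • (Pi.basisFun L ι).det) N := by
      rw [← h2]
    rw [h3]
    simp only [Pi.basisFun_det]
    rw [mul_comm]
    rfl
  have h4 : B N = A c' := by
    rw [hB, AlternatingMap.compLinearMap_apply]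
    congr 1
    funext i
    exact hrow i
  have h5 : B (Pi.basisFun L ι) = A c := by
    rw [hB, AlternatingMap.compLinearMap_apply]
    congr 1
    funext i
    exact hone i
  rw [← h4, h1, h5, hdet]

theorem val_two (n : ℕ) : ((2 : Fin (n + 3)) : ℕ) = 2 := by
  show 2 % (n + 3) = 2
  exact Nat.mod_eq_of_lt (Nat.lt_of_sub_pos (by omega))

theorem main : S_REL → S_DIF → S_V12 := by
  intro hREL _ n hn
  intro L _ _ _ x y _ hD σ A
  set τ : Equiv.Perm (Fin (n + 3)) := Equiv.swap 1 2 with hτ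
  have h01 : (0 : Fin (n + 3)) ≠ 1 := by
    intro h; have := congrArg Fin.val h; simp at this
  have h02 : (0 : Fin (n + 3)) ≠ 2 := by
    intro h
    have := congrArg Fin.val h
    have e2 : ((2 : Fin (n + 3)) : ℕ) = 2 := val_two n
    have e0 : ((0 : Fin (n + 3)) : ℕ) = 0 := rfl
    omega
  have h12 : (1 : Fin (n + 3)) ≠ 2 := by
    intro h
    have := congrArg Fin.val h
    have e1 : ((1 : Fin (n + 3)) : ℕ) = 1 := rfl
    have e2 : ((2 : Fin (n + 3)) : ℕ) = 2 := val_two n
    omega
  have s0 : (σ * τ) 0 = σ 0 := by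
    rw [Equiv.Perm.mul_apply, hτ, Equiv.swap_apply_of_ne_of_ne h01 h02]
  have s1 : (σ * τ) 1 = σ 2 := by
    rw [Equiv.Perm.mul_apply, hτ, Equiv.swap_apply_left]
  have s2 : (σ * τ) 2 = σ 1 := by
    rw [Equiv.Perm.mul_apply, hτ, Equiv.swap_apply_right]
  have s3 : ∀ i : Fin n, (σ * τ) i.succ.succ.succ = σ i.succ.succ.succ := by
    intro i
    rw [Equiv.Perm.mul_apply, hτ, Equiv.swap_apply_of_ne_of_ne]
    · intro h
      have := congrArg Fin.val h
      have e1 : ((1 : Fin (n + 3)) : ℕ) = 1 := rfl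
      simp only [Fin.val_succ] at this
      omega
    · intro h
      have := congrArg Fin.val h
      have e2 : ((2 : Fin (n + 3)) : ℕ) = 2 := val_two n
      simp only [Fin.val_succ] at this
      omega
  have hu01 : uu x y (σ 0) (σ 1) ≠ 0 := hD.nu _ _ (fun h => h01 (σ.injective h))
  have hu02 : uu x y (σ 0) (σ 2) ≠ 0 := hD.nu _ _ (fun h => h02 (σ.injective h))
  have huanti : ∀ i j, uu x y i j = - uu x y j i := by
    intro i j; unfold uu; ring
  set t : L := tt x y σ 2 with ht
  have ht0 : t ≠ 0 := by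
    rw [ht]; unfold tt; exact div_ne_zero hu02 hu01
  have t2' : tt x y (σ * τ) 2 = t⁻¹ := by
    rw [ht]; unfold tt; rw [s0, s1, s2, inv_div]
  have ti' : ∀ i : Fin n, tt x y (σ * τ) i.succ.succ.succ = tt x y σ i.succ.succ.succ * t⁻¹ := by
    intro i
    rw [ht]; unfold tt; rw [s0, s1, s3]
    field_simp
  have ssi : ∀ i : Fin n, ss x (σ * τ) i.succ.succ.succ = ss x σ i.succ.succ.succ := by
    intro i; unfold ss; rw [s0, s3]
  have hw : ww x y (σ * τ) 2 = - (ww x y σ 2 * t⁻¹) := by
    rw [(hREL n L x y hn hD (σ * τ)).1 2, (hREL n L x y hn hD σ).1 2, s0, s1, s2, ht]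
    unfold tt
    rw [huanti (σ 2) (σ 1), huanti (σ 2) (σ 0), huanti (σ 1) (σ 0)]
    field_simp
  have hDinv : KaehlerDifferential.D ℤ L t⁻¹ = (-(t⁻¹) ^ 2) • KaehlerDifferential.D ℤ L t := by
    rw [Derivation.leibniz_inv]
  -- the triangular change
  set d : Fin (n + 1) ⊕ Fin n → L :=
    Sum.elim (Fin.cons (-(t⁻¹) ^ 2) (fun _ => t⁻¹)) (fun _ => 1) with hd
  set r : Fin (n + 1) ⊕ Fin n → L :=
    Sum.elim (Fin.cons 0 (fun k : Fin n => tt x y σ k.succ.succ.succ)) (fun _ => 0) with hr
  have hzero : (0 : Fin (n + 1)).succ.succ = (2 : Fin (n + 3)) := by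
    apply Fin.ext
    have e2 : ((2 : Fin (n + 3)) : ℕ) = 2 := val_two n
    rw [e2]; simp
  have hc : A (cfam x y (σ * τ)) = (∏ i, d i) * A (cfam x y σ) := by
    refine alt_tri A (cfam x y σ) (cfam x y (σ * τ)) d r (Sum.inl 0) ?_ ?_
    · simp [hr]
    · intro i
      rcases i with i | i
      · refine Fin.cases ?_ ?_ i
        · show KaehlerDifferential.D ℤ L (tt x y (σ * τ) (0 : Fin (n + 1)).succ.succ) = _
          rw [hzero, t2', hDinv]
          show _ = (-(t⁻¹) ^ 2) • KaehlerDifferential.D ℤ L (tt x y σ (0 : Fin (n + 1)).succ.succ)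
            + ((0 : L) * _) • _
          rw [hzero, zero_mul, zero_smul, add_zero]
        · intro k
          show KaehlerDifferential.D ℤ L (tt x y (σ * τ) k.succ.succ.succ) =
            (t⁻¹) • KaehlerDifferential.D ℤ L (tt x y σ k.succ.succ.succ)
            + ((tt x y σ k.succ.succ.succ) * (-(t⁻¹) ^ 2)) •
              KaehlerDifferential.D ℤ L (tt x y σ (0 : Fin (n + 1)).succ.succ)
          rw [ti', Derivation.leibniz, hDinv, hzero, ← ht, smul_smul]
          rw [add_comm]
      · show KaehlerDifferential.D ℤ L (ss x (σ * τ) i.succ.succ.succ) =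
            (1 : L) • KaehlerDifferential.D ℤ L (ss x σ i.succ.succ.succ) + ((0 : L) * _) • _
        rw [ssi, one_smul, zero_mul, zero_smul, add_zero]
  have hprod : (∏ i, d i) = -(t⁻¹) ^ (n + 2) := by
    rw [Fintype.prod_sum_type]
    simp only [hd, Sum.elim_inl, Sum.elim_inr, Finset.prod_const_one, mul_one]
    rw [Fin.prod_univ_succ]
    simp only [Fin.cons_zero, Fin.cons_succ, Finset.prod_const, Finset.card_univ, Fintype.card_fin]
    ring
  rw [hc, hprod, hw, s0]
  have hsign : (-(ww x y σ 2 * t⁻¹)) ^ (n + 2) = (ww x y σ 2 * t⁻¹) ^ (n + 2) ∨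
      (-(ww x y σ 2 * t⁻¹)) ^ (n + 2) = -(ww x y σ 2 * t⁻¹) ^ (n + 2) := by
    rcases Nat.even_or_odd (n + 2) with he | ho
    · left; exact he.neg_pow _
    · right; exact ho.neg_pow _
  rcases hsign with h | h
  · right
    rw [h, mul_pow]; ring
  · left
    rw [h, mul_pow]; ring

end Pool.Agent.W750.CB
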